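import Pool.Agent.Lib.MP_d74a39_nt.GenMain

open NumberField Pool.Agent.Lib.MP_d74a39_nt

/-- If the finite abelian group `G` of automorphisms of `F` commutes with automorphisms `a`, `b`,
where `a ^ p = 1` and `w = a b a⁻¹ b⁻¹` is an element of `G` of prime order `p`, the image of
`[A] - [B]` in `K₀(ℤ[G][1/(|G| (1 - w))])` is `p` times an element. -/
theorem Pool.Agent.Results.MP_d74a39_nt.CentralAbelian.result :
    ∀ (p : ℕ), p.Prime →
    ∀ (G : Type) [CommGroup G] [Finite G]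
      (K₀ F : Type) [Field K₀] [Field F] [NumberField K₀] [NumberField F] [Algebra K₀ F]
      (φ : G →* (F ≃ₐ[K₀] F)) (w : G) (a b : F ≃ₐ[K₀] F), HeisG p φ w a b →
    ∀ (T : Set (Ideal (𝓞 F))), GoodSet K₀ T →
    ∀ (U A C B X P₀ P₁ Q₀ Q₁ : ModuleCat.{0} (LamG G)),
      IsModG φ unitAct (sUnits T) U → IsModG φ divAct (degZero T) X →
      ShortEx (LamG G) U A C → ShortEx (LamG G) C B X →
      Resol (LamG G) A P₀ P₁ → Resol (LamG G) B Q₀ Q₁ →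
      IsMultiple (LamG G) (RG w) p P₀ P₁ Q₀ Q₁ := by
  intro p hp G _ _ K₀ F _ _ _ _ _ φ w a b H T ⟨hT, _, hst⟩ U A C B X P₀ P₁ Q₀ Q₁
    ⟨ι, hι, hιr, hιz⟩ ⟨κ, hκ, hκr, hκz⟩ s1 s2 r1 r2
  have := free_of_places T hT X κ hκ hκr
  exact coreG p hp w H.2.1 U A C B X P₀ P₁ Q₀ Q₁ (opG_units p T hst φ w a b H U ι hι hιr hιz)
    (opG_places p T hst φ w a b H X κ hκ hκr hκz) s1 s2 r1 r2
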